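import Pool.Agent.L7h89.OF.P_TR

/-!
# Translation invariant functionals

Task S_TI of the project OF of helper49.
-/

set_option autoImplicit false

open Set Filter Topology MeasureTheory
open scoped ContDiff

noncomputable section

namespace Pool.Agent.L7h89.OF

open Pool.Agent.L7h49.OF

lemma trans_inv {k : ℕ} {Y : Type} [MeasurableSpace Y] {μ : Measure Y} {F : Y → E k}
    {w : Y → ℝ} (hF : AEMeasurable F μ) (hw : Integrable w μ) (c : E k) (r : ℝ)
    (H : ∀ g : E k → ℝ, ContDiff ℝ ∞ g → HasCompactSupport g →
      tsupport g ⊆ Metric.ball c (3 * r) → ∀ v : E k, ∫ y, fderiv ℝ g (F y) v * w y ∂μ = 0)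
    {g : E k → ℝ} (hg : ContDiff ℝ ∞ g) (hc : HasCompactSupport g)
    (hgs : tsupport g ⊆ Metric.ball c r) (a : E k) (ha : ‖a‖ < r) :
    ∫ y, g (F y - a) * w y ∂μ = ∫ y, g (F y) * w y ∂μ := by
  have := st_TR k Unit Y (fun _ => μ) (fun _ => F) (fun _ => w) (fun _ => hF) (fun _ => hw)
    (Metric.ball c (3 * r)) Metric.isOpen_ball (fun g hg hc hs v => by
      simpa using H g hg hc hs v) g a hg hc (fun s h0 h1 x hx => by
      have h2 := hgs hx
      rw [Metric.mem_ball, dist_eq_norm] at h2 ⊢
      have h3 : x + s • a - c = (x - c) + s • a := by abel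
      rw [h3]
      refine (norm_add_le _ _).trans_lt ?_
      rw [norm_smul, Real.norm_of_nonneg h0]
      have : s * ‖a‖ ≤ 1 * ‖a‖ := by gcongr
      have := norm_nonneg a
      linarith)
  simpa using this

lemma int_prod {k : ℕ} {Y : Type} [MeasurableSpace Y] {μ : Measure Y} [IsFiniteMeasure μ]
    {F : Y → E k} {w : Y → ℝ} (hF : AEMeasurable F μ) (hw : Integrable w μ) (c : E k)
    {g h : E k → ℝ} (hg : Continuous g) (hh : Continuous h) (hgc : HasCompactSupport g)
    (hhc : HasCompactSupport h) :
    Integrable (fun p : E k × Y => h p.1 * (g (F p.2 - (p.1 - c)) * w p.2)) (volume.prod μ) := by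
  obtain ⟨C0, hC0⟩ := hgc.exists_bound_of_continuous hg
  have h1 : Integrable (fun p : E k × Y => h p.1 * w p.2) (volume.prod μ) :=
    (hh.integrable_of_hasCompactSupport hhc).mul_prod hw
  have h2 : AEStronglyMeasurable (fun p : E k × Y => g (F p.2 - (p.1 - c))) (volume.prod μ) := by
    refine (hg.measurable.comp_aemeasurable ?_).aestronglyMeasurable
    exact (hF.comp_quasiMeasurePreserving Measure.quasiMeasurePreserving_snd).sub
      (measurable_fst.sub_const c).aemeasurable
  have h3 := h1.bdd_mul h2 (Eventually.of_forall fun p => hC0 _)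
  refine h3.congr (Eventually.of_forall fun p => ?_)
  simp only
  ring

/-- task S_TI -/
theorem st_TI : S_TI := by
  intro k Y _ μ _ F w hF hw c r hr H g h hg hh hgs hhs
  have hcpt : ∀ {f : E k → ℝ}, tsupport f ⊆ Metric.ball c r → HasCompactSupport f := fun hf =>
    HasCompactSupport.of_support_subset_isCompact (isCompact_closedBall c r)
      ((subset_tsupport _).trans (hf.trans Metric.ball_subset_closedBall))
  have hgc := hcpt hgs
  have hhc := hcpt hhs
  -- the double integral
  have key : ∀ {g h : E k → ℝ}, ContDiff ℝ ∞ g → ContDiff ℝ ∞ h → tsupport g ⊆ Metric.ball c r →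
      tsupport h ⊆ Metric.ball c r →
      ∫ y, (∫ x, h x * g (F y - (x - c))) * w y ∂μ = (∫ y, g (F y) * w y ∂μ) * ∫ x, h x := by
    intro g h hg hh hgs hhs
    have hgc := hcpt hgs
    have hhc := hcpt hhs
    have hint := int_prod hF hw c hg.continuous hh.continuous hgc hhc
    have e1 : ∫ y, (∫ x, h x * g (F y - (x - c))) * w y ∂μ =
        ∫ y, (∫ x, h x * (g (F y - (x - c)) * w y)) ∂μ := by
      refine integral_congr_ae (Eventually.of_forall fun y => ?_)
      simp only
      rw [← integral_mul_const]
      exact integral_congr_ae (Eventually.of_forall fun x => by simp only; ring)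
    rw [e1, ← integral_integral_swap hint]
    have e2 : ∀ x, ∫ y, h x * (g (F y - (x - c)) * w y) ∂μ =
        h x * ∫ y, g (F y) * w y ∂μ := by
      intro x
      rw [integral_const_mul]
      by_cases hx : x ∈ tsupport h
      · rw [trans_inv hF hw c r H hg hgc hgs (x - c)]
        have := hhs hx
        rwa [Metric.mem_ball, dist_eq_norm] at this
      · rw [image_eq_zero_of_notMem_tsupport hx, zero_mul, zero_mul]
    simp only [e2]
    rw [integral_mul_const, mul_comm]
  rw [← key hg hh hgs hhs, ← key hh hg hhs hgs]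
  refine integral_congr_ae (Eventually.of_forall fun y => ?_)
  simp only
  congr 1
  have e3 := integral_sub_left_eq_self (fun x => h x * g (F y - (x - c))) volume (F y + c)
  rw [← e3]
  refine integral_congr_ae (Eventually.of_forall fun x => ?_)
  simp only
  have e4 : F y - (F y + c - x - c) = x := by abel
  have e5 : F y + c - x = F y - (x - c) := by abel
  rw [e4, e5, mul_comm]

end Pool.Agent.L7h89.OF
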