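import Pool.Agent.L7h49.OF.Stm

/-!
# Complex structures

Tasks S_L1 and S_L2 of the project OF of helper49.
-/

set_option autoImplicit false

open Module

namespace Pool.Agent.L7h89.OF

open Pool.Agent.L7h49.OF

/-- the complex module structure given by a complex structure -/
@[reducible] noncomputable def cmod {V : Type} [AddCommGroup V] [Module ℝ V] (J : V →ₗ[ℝ] V)
    (hJ : ∀ v, J (J v) = -v) : Module ℂ V :=
  Module.compHom V (Complex.lift ⟨(J : Module.End ℝ V), by
    ext v; simpa using hJ v⟩ : ℂ →ₐ[ℝ] Module.End ℝ V).toRingHom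

lemma cmod_smul {V : Type} [AddCommGroup V] [Module ℝ V] (J : V →ₗ[ℝ] V)
    (hJ : ∀ v, J (J v) = -v) (z : ℂ) (v : V) :
    letI := cmod J hJ
    z • v = z.re • v + z.im • J v := by
  change (Complex.lift ⟨(J : Module.End ℝ V), _⟩ : ℂ →ₐ[ℝ] Module.End ℝ V) z v = _
  rw [Complex.lift_apply, Complex.liftAux_apply]
  simp [Algebra.algebraMap_eq_smul_one]

lemma cmod_tower {V : Type} [AddCommGroup V] [Module ℝ V] (J : V →ₗ[ℝ] V)
    (hJ : ∀ v, J (J v) = -v) :
    letI := cmod J hJ
    IsScalarTower ℝ ℂ V := by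
  let _ := cmod J hJ
  refine ⟨fun r z v => ?_⟩
  rw [cmod_smul J hJ, cmod_smul J hJ]
  simp [smul_add, mul_smul]

/-- task S_L1 -/
theorem st_L1 : S_L1 := by
  intro V _ _ _ J S hJ hS
  let _ := cmod J hJ
  have := cmod_tower J hJ
  have : Module.Finite ℂ V := Module.Finite.of_restrictScalars_finite ℝ ℂ V
  let S' : V →ₗ[ℂ] V :=
    { toFun := S
      map_add' := S.map_add
      map_smul' := fun z v => by
        rw [cmod_smul J hJ, RingHom.id_apply, cmod_smul J hJ, map_add, map_smul, map_smul, hS] }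
  have h : (S'.restrictScalars ℝ) = S := rfl
  rw [← h, LinearMap.det_restrictScalars, Algebra.norm_complex_apply]
  exact Complex.normSq_nonneg _

/-- task S_L2 -/
theorem st_L2 : S_L2 := by
  intro V W _ _ _ _ _ _ J K hJ hK hVW
  let _ := cmod J hJ
  have := cmod_tower J hJ
  have : Module.Finite ℂ V := Module.Finite.of_restrictScalars_finite ℝ ℂ V
  let _ := cmod K hK
  have := cmod_tower K hK
  have : Module.Finite ℂ W := Module.Finite.of_restrictScalars_finite ℝ ℂ W
  have h1 := Module.finrank_mul_finrank ℝ ℂ V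
  have h2 := Module.finrank_mul_finrank ℝ ℂ W
  rw [Complex.finrank_real_complex] at h1 h2
  obtain ⟨T⟩ := FiniteDimensional.nonempty_linearEquiv_of_finrank_eq
    (by omega : Module.finrank ℂ V = Module.finrank ℂ W)
  refine ⟨T.restrictScalars ℝ, fun v => ?_⟩
  have h3 := T.map_smul Complex.I v
  rw [cmod_smul J hJ, cmod_smul K hK] at h3
  simpa using h3

end Pool.Agent.L7h89.OF
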