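import Pool.Agent.L7h49.OF.Stm2
import Pool.Agent.Y484.SY.Gen
import Pool.Agent.L7h76.OF.Om

/-!
# Closed positive currents do not charge points

Task S_PT of the project OF of helper49.
-/

set_option autoImplicit false

open Set Filter Topology MeasureTheory
open scoped Manifold ContDiff

noncomputable section

namespace Pool.Agent.L7h89.OF

open Pool.Agent.Y501.SY
open Pool.Agent.N13.TL
open Pool.Agent.L7h49.TS (qq qq_cont)
open Pool.Agent.R772 (ExactF)
open Pool.Agent.L7h49.OG
open Pool.Agent.L7h76.OF (B_left B_left_smul B_swap B_right B_right_smul)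

/-- expansion of a two-form in coordinates -/
lemma form_expand {d : ℕ} (B : (E d) [⋀^Fin 2]→L[ℝ] ℝ) (v w : E d) :
    B ![v, w] = (1 / 2) * ∑ a : Fin d, ∑ b : Fin d,
      B ![EuclideanSpace.single a 1, EuclideanSpace.single b 1] * (v a * w b - v b * w a) := by
  have hsum_left : ∀ (s : Finset (Fin d)) (c : Fin d → ℝ) (y : E d),
      B ![∑ a ∈ s, c a • EuclideanSpace.single a (1 : ℝ), y] =
        ∑ a ∈ s, c a * B ![EuclideanSpace.single a 1, y] := by
    classical
    intro s c y
    induction s using Finset.induction with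
    | empty =>
      have := B_left_smul B 0 0 y
      simpa using this
    | insert a s ha ih =>
      rw [Finset.sum_insert ha, Finset.sum_insert ha, B_left, B_left_smul, ih]
  have hsum_right : ∀ (s : Finset (Fin d)) (c : Fin d → ℝ) (y : E d),
      B ![y, ∑ a ∈ s, c a • EuclideanSpace.single a (1 : ℝ)] =
        ∑ a ∈ s, c a * B ![y, EuclideanSpace.single a 1] := by
    intro s c y
    rw [B_swap, hsum_left, ← Finset.sum_neg_distrib]
    refine Finset.sum_congr rfl fun a _ => ?_
    rw [B_swap B (EuclideanSpace.single a 1) y]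
    ring
  have hv : ∀ v : E d, v = ∑ a, v a • EuclideanSpace.single a (1 : ℝ) := by
    intro v
    ext i
    simp [Finset.sum_apply, Pi.single_apply]
  have h1 : B ![v, w] = ∑ a, ∑ b, B ![EuclideanSpace.single a 1, EuclideanSpace.single b 1] *
      (v a * w b) := by
    conv_lhs => rw [hv v, hv w]
    rw [hsum_left]
    refine Finset.sum_congr rfl fun a _ => ?_
    rw [hsum_right, Finset.mul_sum]
    exact Finset.sum_congr rfl fun b _ => by ring
  have h2 : ∑ a, ∑ b, B ![EuclideanSpace.single a 1, EuclideanSpace.single b 1] *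
      (v b * w a) = - B ![v, w] := by
    rw [h1, Finset.sum_comm, ← Finset.sum_neg_distrib]
    refine Finset.sum_congr rfl fun a _ => ?_
    rw [← Finset.sum_neg_distrib]
    refine Finset.sum_congr rfl fun b _ => ?_
    rw [B_swap]
    ring
  simp only [mul_sub, Finset.sum_sub_distrib, ← h1, h2]
  ring

variable {d : ℕ} {X : Type} [TopologicalSpace X] [ChartedSpace (E d) X]

lemma qq_dfdg (J : End d X) (f g : X → ℝ) (p : TangentBundle (𝓡 d) X) :
    qq (dfdg (d := d) f g) J p = dd (d := d) f p.proj p.snd * dd (d := d) g p.proj (J p.proj p.snd) -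
      dd (d := d) f p.proj (J p.proj p.snd) * dd (d := d) g p.proj p.snd :=
  wedge_apply (V := E d) (dd f p.proj) (dd g p.proj) ![p.snd, J p.proj p.snd]

section

variable [IsManifold (𝓡 d) ∞ X]

lemma smooth_dfdg {f g : X → ℝ} (hf : SmoothFun (d := d) f) (hg : SmoothFun (d := d) g) :
    IsSmooth (dfdg (d := d) f g) := by
  have h := (Pool.Agent.Y484.SY.t_GEN d X (fun _ => 1) f g contMDiff_const hf hg).2.1
  have e : hdfdg (d := d) (fun _ => 1) f g = dfdg f g := by
    funext x
    exact one_smul ℝ (wedge (V := E d) (dd f x) (dd g x))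
  rwa [e] at h

lemma exact_dfdg {f g : X → ℝ} (hf : SmoothFun (d := d) f) (hg : SmoothFun (d := d) g) :
    ExactF (dfdg (d := d) f g) := by
  have h := Pool.Agent.Y484.SY.t_GEN d X f f g hf hf hg
  exact ⟨_, h.1, smooth_dfdg hf hg, h.2.2.1⟩

/-- the differential of `h Θ(u)` -/
lemma dd_mul_comp {h u : X → ℝ} {Θ : ℝ → ℝ} (hh : SmoothFun (d := d) h)
    (hu : SmoothFun (d := d) u) (hΘ : ContDiff ℝ ∞ Θ) (x : X) (v : TangentSpace (𝓡 d) x) :
    dd (d := d) (fun y => h y * Θ (u y)) x v =
      Θ (u x) * dd (d := d) h x v + h x * deriv Θ (u x) * dd (d := d) u x v := by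
  have h1 : HasMFDerivAt (𝓡 d) 𝓘(ℝ, ℝ) h x (dd (d := d) h x) :=
    ((hh x).mdifferentiableAt (by simp)).hasMFDerivAt
  have h2 : HasMFDerivAt (𝓡 d) 𝓘(ℝ, ℝ) u x (dd (d := d) u x) :=
    ((hu x).mdifferentiableAt (by simp)).hasMFDerivAt
  have h3 : HasMFDerivAt 𝓘(ℝ, ℝ) 𝓘(ℝ, ℝ) Θ (u x) (fderiv ℝ Θ (u x)) :=
    ((hΘ.differentiable (by simp)) (u x)).hasFDerivAt.hasMFDerivAt
  have h4 := h3.comp x h2
  have h5 := h1.mul h4
  have h6 := h5.mfderiv
  have h7 : dd (d := d) (fun y => h y * Θ (u y)) x = _ := h6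
  rw [h7]
  have h8 : (fderiv ℝ Θ (u x)) ((dd (d := d) u x) v) = deriv Θ (u x) * dd (d := d) u x v := by
    simp [mul_comm]
  have h9 : (h x • ((fderiv ℝ Θ (u x)).comp (dd (d := d) u x)) + Θ (u x) • dd (d := d) h x :
      TangentSpace (𝓡 d) x →L[ℝ] ℝ) v = h x * (fderiv ℝ Θ (u x)) ((dd (d := d) u x) v) +
        Θ (u x) * dd (d := d) h x v := rfl
  refine Eq.trans h9 ?_
  rw [h8]
  ring

lemma qq_mul_comp (J : End d X) {h u : X → ℝ} {Θ : ℝ → ℝ} (hh : SmoothFun (d := d) h)
    (hu : SmoothFun (d := d) u) (hΘ : ContDiff ℝ ∞ Θ) (g : X → ℝ) (p : TangentBundle (𝓡 d) X) :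
    qq (dfdg (d := d) (fun y => h y * Θ (u y)) g) J p =
      Θ (u p.proj) * qq (dfdg (d := d) h g) J p +
        h p.proj * deriv Θ (u p.proj) * qq (dfdg (d := d) u g) J p := by
  rw [qq_dfdg, qq_dfdg, qq_dfdg, dd_mul_comp hh hu hΘ, dd_mul_comp hh hu hΘ]
  ring

/-- a cut-off function -/
lemma exists_Theta : ∃ Θ : ℝ → ℝ, ContDiff ℝ ∞ Θ ∧ HasCompactSupport Θ ∧ deriv Θ 0 = 1 := by
  let b : ContDiffBump (0 : ℝ) := ⟨1, 2, one_pos, one_lt_two⟩
  refine ⟨fun t => t * b t, contDiff_id.mul b.contDiff, b.hasCompactSupport.mul_left, ?_⟩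
  have h1 : HasDerivAt (fun t : ℝ => t * b t) (1 * b 0 + 0 * deriv b 0) 0 :=
    (hasDerivAt_id (0 : ℝ)).mul
      ((b.contDiff (n := 1)).differentiable (by simp) 0).hasDerivAt
  rw [h1.deriv, b.one_of_mem_closedBall (by simp [b.rIn_pos.le])]
  ring

/-- coordinate functions with cut-off -/
lemma exists_coord [T2Space X] (x : X) (a : Fin d) : ∃ g : X → ℝ, SmoothFun (d := d) g ∧
    g x = 0 ∧ ∀ v : E d, dd (d := d) g x v = v a := by
  obtain ⟨f⟩ : Nonempty (SmoothBumpFunction (𝓡 d) x) := inferInstance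
  set c := chartAt (E d) x with hc
  have hx : x ∈ c.source := mem_chart_source _ _
  set g : X → ℝ := fun y => f y • ((c y) a - (c x) a) with hg
  have hgs : SmoothFun (d := d) g := by
    apply f.contMDiff_smul
    have h1 : ContMDiffOn (𝓡 d) (𝓡 d) ∞ c c.source := contMDiffOn_chart
    have h2 : ContMDiff (𝓡 d) 𝓘(ℝ, ℝ) ∞ (fun z : E d => z a - (c x) a) := by
      rw [contMDiff_iff_contDiff]
      fun_prop
    exact h2.comp_contMDiffOn h1
  refine ⟨g, hgs, by simp [hg], fun v => ?_⟩
  have h1 : MDifferentiableAt (𝓡 d) 𝓘(ℝ, ℝ) g x := (hgs x).mdifferentiableAt (by simp)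
  have hd : dd (d := d) g x = fderiv ℝ (g ∘ c.symm) (c x) := by
    simp only [dd, mfderiv, h1, if_true, writtenInExtChartAt, extChartAt, mfld_simps,
      fderivWithin_univ]
    rfl
  have h2 : (g ∘ c.symm) =ᶠ[𝓝 (c x)] fun z : E d => z a - (c x) a := by
    have h3 : Tendsto c.symm (𝓝 (c x)) (𝓝 x) := by
      have := c.symm.continuousAt (c.map_source hx)
      rwa [ContinuousAt, c.left_inv hx] at this
    filter_upwards [h3.eventually f.eventuallyEq_one, c.open_target.mem_nhds (c.map_source hx)]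
      with z hz hz2
    simp only [Function.comp_apply, hg]
    rw [hz, c.right_inv hz2]
    simp
  rw [hd, h2.fderiv_eq]
  have h4 : HasFDerivAt (fun z : E d => z a - (c x) a)
      (EuclideanSpace.proj a : E d →L[ℝ] ℝ) (c x) :=
    (EuclideanSpace.proj a : E d →L[ℝ] ℝ).hasFDerivAt.sub_const _
  rw [h4.fderiv]
  rfl

variable [MeasurableSpace (TangentBundle (𝓡 d) X)] [BorelSpace (TangentBundle (𝓡 d) X)]
  {J : End d X} {K : Set (TangentBundle (𝓡 d) X)} {μ : Measure (TangentBundle (𝓡 d) X)}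

lemma integrable_of_cont (hK : IsCompact K) (hCC : CC J K μ) {f : TangentBundle (𝓡 d) X → ℝ}
    (hf : Continuous f) : Integrable f μ := by
  have := hCC.fin
  obtain ⟨C, hC⟩ := hK.exists_bound_of_continuousOn hf.continuousOn
  refine Integrable.of_bound hf.aestronglyMeasurable C ?_
  rw [ae_iff]
  refine measure_mono_null ?_ hCC.car
  intro p hp hpK
  exact hp (hC p hpK)

lemma proj_cont : Continuous (Bundle.TotalSpace.proj : TangentBundle (𝓡 d) X → X) :=
  FiberBundle.continuous_proj (E d) (TangentSpace (𝓡 d))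

/-- the restriction of a closed current to the zero set of `u` -/
lemma step1 (hJ : IsAlmostComplex J) (hK : IsCompact K) (hCC : CC J K μ) {h u g : X → ℝ}
    (hh : SmoothFun (d := d) h) (hu : SmoothFun (d := d) u) (hg : SmoothFun (d := d) g) :
    ∫ p, ({p : TangentBundle (𝓡 d) X | u p.proj = 0}.indicator
      (fun p => h p.proj * qq (dfdg (d := d) u g) J p) p) ∂μ = 0 := by
  obtain ⟨Θ, hΘ, hΘc, hΘ0⟩ := exists_Theta
  have hdc : Continuous (deriv Θ) := hΘ.continuous_deriv (by simp)
  obtain ⟨C₀, hC₀⟩ := hΘc.exists_bound_of_continuous hΘ.continuous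
  obtain ⟨C₁, hC₁⟩ := (hΘc.deriv).exists_bound_of_continuous hdc
  obtain ⟨R, hR, hR'⟩ := (hΘc.deriv).exists_pos_le_norm
  have hC₀0 : 0 ≤ C₀ := (norm_nonneg _).trans (hC₀ 0)
  set T : ℕ → ℝ → ℝ := fun k s => Θ (((k : ℝ) + 1) * s) / ((k : ℝ) + 1) with hT
  have hTs : ∀ k, ContDiff ℝ ∞ (T k) := fun k =>
    (hΘ.comp (contDiff_const.mul contDiff_id)).div_const _
  have hTd : ∀ k s, deriv (T k) s = deriv Θ (((k : ℝ) + 1) * s) := by
    intro k s
    have hk : ((k : ℝ) + 1) ≠ 0 := by positivity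
    have h1 : HasDerivAt (fun s : ℝ => ((k : ℝ) + 1) * s) ((k : ℝ) + 1) s := by
      simpa using (hasDerivAt_id s).const_mul ((k : ℝ) + 1)
    have h2 : HasDerivAt Θ (deriv Θ (((k : ℝ) + 1) * s)) (((k : ℝ) + 1) * s) :=
      (hΘ.differentiable (by simp) _).hasDerivAt
    have h3 := (h2.comp s h1).div_const ((k : ℝ) + 1)
    rw [mul_div_assoc, div_self hk, mul_one] at h3
    exact h3.deriv
  have hqhg : Continuous (qq (dfdg (d := d) h g) J) := qq_cont (smooth_dfdg hh hg) hJ
  have hqug : Continuous (qq (dfdg (d := d) u g) J) := qq_cont (smooth_dfdg hu hg) hJ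
  have hhc : Continuous (fun p : TangentBundle (𝓡 d) X => h p.proj) :=
    hh.continuous.comp proj_cont
  set Fk : ℕ → TangentBundle (𝓡 d) X → ℝ := fun k =>
    qq (dfdg (d := d) (fun y => h y * T k (u y)) g) J with hFk
  have hsm : ∀ k, SmoothFun (d := d) (fun y => h y * T k (u y)) := fun k =>
    ContMDiff.mul hh ((contMDiff_iff_contDiff.2 (hTs k)).comp hu)
  have hFeq : ∀ k p, Fk k p = T k (u p.proj) * qq (dfdg (d := d) h g) J p +
      h p.proj * deriv Θ (((k : ℝ) + 1) * u p.proj) * qq (dfdg (d := d) u g) J p := by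
    intro k p
    simp only [hFk]
    rw [qq_mul_comp J hh hu (hTs k), hTd]
  have hz : ∀ k, ∫ p, Fk k p ∂μ = 0 := fun k => hCC.orth _ (exact_dfdg (hsm k) hg)
  have hTb : ∀ k s, |T k s| ≤ C₀ := by
    intro k s
    simp only [hT]
    rw [abs_div, abs_of_pos (by positivity : (0 : ℝ) < (k : ℝ) + 1)]
    refine (div_le_self (abs_nonneg _) (by linarith [(Nat.cast_nonneg k : (0 : ℝ) ≤ k)])).trans ?_
    exact hC₀ _
  have hlim := tendsto_integral_of_dominated_convergence (μ := μ) (F := Fk)
    (f := {p : TangentBundle (𝓡 d) X | u p.proj = 0}.indicator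
      (fun p => h p.proj * qq (dfdg (d := d) u g) J p))
    (fun p => C₀ * |qq (dfdg (d := d) h g) J p| + C₁ * |h p.proj * qq (dfdg (d := d) u g) J p|)
    (fun k => (qq_cont (smooth_dfdg (hsm k) hg) hJ).aestronglyMeasurable)
    (integrable_of_cont hK hCC ((continuous_const.mul hqhg.abs).add
      (continuous_const.mul (hhc.mul hqug).abs))) ?_ ?_
  · simp only [hz] at hlim
    exact (tendsto_nhds_unique hlim tendsto_const_nhds)
  · intro k
    refine Eventually.of_forall fun p => ?_
    rw [hFeq]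
    refine (norm_add_le _ _).trans ?_
    rw [norm_mul, Real.norm_eq_abs, Real.norm_eq_abs]
    refine add_le_add (mul_le_mul_of_nonneg_right (hTb k _) (abs_nonneg _)) ?_
    have h1 : h p.proj * deriv Θ (((k : ℝ) + 1) * u p.proj) * qq (dfdg (d := d) u g) J p =
        deriv Θ (((k : ℝ) + 1) * u p.proj) * (h p.proj * qq (dfdg (d := d) u g) J p) := by ring
    rw [h1, norm_mul]
    exact mul_le_mul_of_nonneg_right (hC₁ _) (norm_nonneg _)
  · refine Eventually.of_forall fun p => ?_
    have h1 : Tendsto (fun k : ℕ => T k (u p.proj)) atTop (𝓝 0) := by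
      rw [tendsto_zero_iff_abs_tendsto_zero]
      refine squeeze_zero (fun k => abs_nonneg _) (g := fun k : ℕ => C₀ * (1 / ((k : ℝ) + 1))) ?_ ?_
      · intro k
        simp only [Function.comp_apply, hT]
        rw [abs_div, abs_of_pos (by positivity : (0 : ℝ) < (k : ℝ) + 1), ← mul_one_div]
        gcongr
        exact hC₀ _
      · simpa using (tendsto_one_div_add_atTop_nhds_zero_nat (𝕜 := ℝ)).const_mul C₀
    have h2 : Tendsto (fun k : ℕ => deriv Θ (((k : ℝ) + 1) * u p.proj)) atTop
        (𝓝 (if u p.proj = 0 then 1 else 0)) := by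
      split_ifs with h0
      · simp only [h0, mul_zero, hΘ0]
        exact tendsto_const_nhds
      · apply tendsto_const_nhds.congr'
        have h3 : Tendsto (fun k : ℕ => ((k : ℝ) + 1) * |u p.proj|) atTop atTop :=
          (tendsto_atTop_add_const_right _ 1 tendsto_natCast_atTop_atTop).atTop_mul_const
            (abs_pos.2 h0)
        filter_upwards [h3.eventually_ge_atTop R] with k hk
        symm
        apply hR'
        rw [norm_mul, Real.norm_eq_abs, Real.norm_eq_abs,
          abs_of_pos (by positivity : (0 : ℝ) < (k : ℝ) + 1)]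
        exact hk
    have h3 := (h1.mul_const (qq (dfdg (d := d) h g) J p)).add
      ((h2.const_mul (h p.proj)).mul_const (qq (dfdg (d := d) u g) J p))
    simp only [hFeq]
    convert h3 using 2
    by_cases h0 : u p.proj = 0
    · rw [indicator_of_mem (by exact h0), if_pos h0]
      ring
    · rw [indicator_of_notMem (by exact h0), if_neg h0]
      ring

/-- the restriction of a closed current to a point -/
lemma step2 [T2Space X] [SigmaCompactSpace X]
    (hJ : IsAlmostComplex J) (hK : IsCompact K) (hCC : CC J K μ) {u g : X → ℝ}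
    (hu : SmoothFun (d := d) u) (hg : SmoothFun (d := d) g) (x : X) (hux : u x = 0) :
    ∫ p, ((Bundle.TotalSpace.proj ⁻¹' {x} : Set (TangentBundle (𝓡 d) X)).indicator
      (qq (dfdg (d := d) u g) J) p) ∂μ = 0 := by
  obtain ⟨ψ, hψ, hψr, -, hψ1⟩ := exists_contMDiff_zero_iff_one_iff_of_isClosed (n := (⊤ : ℕ∞)) (𝓡 d)
    (s := (∅ : Set X)) (t := {x}) isClosed_empty isClosed_singleton (by simp)
  have hψ01 : ∀ y, 0 ≤ ψ y ∧ ψ y ≤ 1 := fun y => hψr ⟨y, rfl⟩
  have hpow : ∀ m : ℕ, SmoothFun (d := d) (fun y => ψ y ^ m) := by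
    intro m
    have h1 : ContMDiff 𝓘(ℝ, ℝ) 𝓘(ℝ, ℝ) ∞ (fun t : ℝ => t ^ m) :=
      contMDiff_iff_contDiff.2 (contDiff_id.pow m)
    exact h1.comp hψ
  set S : Set (TangentBundle (𝓡 d) X) := {p | u p.proj = 0} with hS
  have hSm : MeasurableSet S :=
    (isClosed_singleton.preimage (hu.continuous.comp proj_cont) : IsClosed S).measurableSet
  have hqug : Continuous (qq (dfdg (d := d) u g) J) := qq_cont (smooth_dfdg hu hg) hJ
  have hψc : Continuous (fun p : TangentBundle (𝓡 d) X => ψ p.proj) :=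
    hψ.continuous.comp proj_cont
  set G : ℕ → TangentBundle (𝓡 d) X → ℝ := fun m =>
    S.indicator (fun p => ψ p.proj ^ m * qq (dfdg (d := d) u g) J p) with hG
  have hz : ∀ m, ∫ p, G m p ∂μ = 0 := fun m => step1 hJ hK hCC (hpow m) hu hg
  have hGc : ∀ m, Continuous (fun p => ψ p.proj ^ m * qq (dfdg (d := d) u g) J p) := fun m =>
    (hψc.pow m).mul hqug
  have hlim := tendsto_integral_of_dominated_convergence (μ := μ) (F := G)
    (f := (Bundle.TotalSpace.proj ⁻¹' {x} : Set (TangentBundle (𝓡 d) X)).indicator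
      (qq (dfdg (d := d) u g) J))
    (fun p => |qq (dfdg (d := d) u g) J p|)
    (fun m => (hGc m).aestronglyMeasurable.indicator hSm)
    (integrable_of_cont hK hCC hqug.abs) ?_ ?_
  · simp only [hz] at hlim
    exact (tendsto_nhds_unique hlim tendsto_const_nhds)
  · intro m
    refine Eventually.of_forall fun p => ?_
    simp only [hG]
    refine (norm_indicator_le_norm_self _ _).trans ?_
    rw [norm_mul, norm_pow, Real.norm_eq_abs, Real.norm_eq_abs, abs_of_nonneg (hψ01 _).1]
    exact mul_le_of_le_one_left (abs_nonneg _) (pow_le_one₀ (hψ01 _).1 (hψ01 _).2)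
  · refine Eventually.of_forall fun p => ?_
    by_cases hp : p.proj = x
    · have h1 : p ∈ (Bundle.TotalSpace.proj ⁻¹' {x} : Set (TangentBundle (𝓡 d) X)) := hp
      have h2 : p ∈ S := by
        simp only [hS, mem_ofPred_eq, hp, hux]
      have h3 : ψ p.proj = 1 := (hψ1 _).1 hp
      simp only [hG, indicator_of_mem h1, indicator_of_mem h2, h3, one_pow, one_mul]
      exact tendsto_const_nhds
    · have h1 : p ∉ (Bundle.TotalSpace.proj ⁻¹' {x} : Set (TangentBundle (𝓡 d) X)) := hp
      rw [indicator_of_notMem h1]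
      by_cases h2 : p ∈ S
      · have h3 : ψ p.proj < 1 := lt_of_le_of_ne (hψ01 _).2 (fun h => hp ((hψ1 _).2 h))
        simp only [hG, indicator_of_mem h2]
        simpa using (tendsto_pow_atTop_nhds_zero_of_lt_one (hψ01 _).1 h3).mul_const
          (qq (dfdg (d := d) u g) J p)
      · simp only [hG, indicator_of_notMem h2]
        exact tendsto_const_nhds

end

/-- task S_PT -/
theorem st_PT : S_PT := by
  intro d X _ _ _ _ _ _ _ J τ K μ hJ hτ hK hqK hCC x
  have := hCC.fin
  choose g hgs hgx hgd using fun a : Fin d => exists_coord (d := d) x a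
  set S : Set (TangentBundle (𝓡 d) X) := Bundle.TotalSpace.proj ⁻¹' {x} with hS
  have hSm : MeasurableSet S := (isClosed_singleton.preimage proj_cont : IsClosed S).measurableSet
  have h1 : ∀ p, S.indicator (qq τ J) p = (1 / 2) * ∑ a : Fin d, ∑ b : Fin d,
      (τ x ![EuclideanSpace.single a (1 : ℝ), EuclideanSpace.single b (1 : ℝ)]) *
        S.indicator (qq (dfdg (d := d) (g a) (g b)) J) p := by
    intro p
    by_cases hp : p ∈ S
    · simp only [indicator_of_mem hp, qq_dfdg]
      obtain ⟨y, v⟩ := p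
      obtain rfl : y = x := hp
      have h2 := form_expand (d := d) (τ y) v (J y v)
      refine Eq.trans h2 ?_
      congr 1
      refine Finset.sum_congr rfl fun a _ => Finset.sum_congr rfl fun b _ => ?_
      congr 1
      simp only
      rw [hgd a v, hgd b v, hgd a (J y v), hgd b (J y v)]
      ring
    · simp only [indicator_of_notMem hp, mul_zero, Finset.sum_const_zero]
  have hint : ∀ a b, Integrable (S.indicator (qq (dfdg (d := d) (g a) (g b)) J)) μ := fun a b =>
    (integrable_of_cont hK hCC (qq_cont (smooth_dfdg (hgs a) (hgs b)) hJ)).indicator hSm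
  have h2 : ∫ p, S.indicator (qq τ J) p ∂μ = 0 := by
    simp only [h1]
    rw [integral_const_mul, integral_finsetSum]
    · rw [Finset.sum_eq_zero, mul_zero]
      intro a _
      rw [integral_finsetSum]
      · refine Finset.sum_eq_zero fun b _ => ?_
        rw [integral_const_mul, step2 hJ hK hCC (hgs a) (hgs b) x (hgx a), mul_zero]
      · exact fun b _ => (hint a b).const_mul _
    · exact fun a _ => integrable_finsetSum _ fun b _ => (hint a b).const_mul _
  have h3 : ∫ p, S.indicator (qq τ J) p ∂μ = ∫ p, S.indicator (fun _ => (1 : ℝ)) p ∂μ := by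
    apply integral_congr_ae
    have hae : ∀ᵐ p ∂μ, p ∈ K := by
      rw [ae_iff]
      exact hCC.car
    filter_upwards [hae] with p hp
    by_cases hpS : p ∈ S
    · rw [indicator_of_mem hpS, indicator_of_mem hpS, hqK p hp]
    · rw [indicator_of_notMem hpS, indicator_of_notMem hpS]
  rw [h3, integral_indicator_const _ hSm, smul_eq_mul, mul_one] at h2
  exact (measureReal_eq_zero_iff).1 h2

end Pool.Agent.L7h89.OF
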