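import Pool.Agent.Y501.SY.Defs

/-!
# Straightening a submersion

Task S_STR of the project OF of helper49.
-/

set_option autoImplicit false

open Set Filter Topology MeasureTheory
open scoped Manifold ContDiff

noncomputable section

namespace Pool.Agent.L7h89.OF

open Pool.Agent.Y501.SY


/-- completion of `n` independent linear forms on `ℝ^(n+2)` -/
lemma exists_compl {n : ℕ} (D : Fin n → E (n + 2) →L[ℝ] ℝ)
    (hD : ∀ w : Fin n → ℝ, ∃ v, ∀ j, D j v = w j) :
    ∃ A : E (n + 2) ≃L[ℝ] E (n + 2), ∀ v j, A v (Fin.succ (Fin.succ j)) = D j v := by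
  classical
  let D' : E (n + 2) →ₗ[ℝ] (Fin n → ℝ) := LinearMap.pi fun j => (D j : E (n + 2) →ₗ[ℝ] ℝ)
  have hsurj : Function.Surjective D' := by
    intro w
    obtain ⟨v, hv⟩ := hD w
    exact ⟨v, funext hv⟩
  obtain ⟨r, hr⟩ := D'.exists_rightInverse_of_surjective (LinearMap.range_eq_top.2 hsurj)
  have hr' : ∀ w, D' (r w) = w := fun w => congrArg (fun f => f w) hr
  have hker : Module.finrank ℝ (LinearMap.ker D') = Module.finrank ℝ (Fin 2 → ℝ) := by
    have h := LinearMap.finrank_range_add_finrank_ker D'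
    rw [LinearMap.range_eq_top.2 hsurj, finrank_top, Module.finrank_fin_fun,
      finrank_euclideanSpace_fin] at h
    rw [Module.finrank_fin_fun]
    omega
  let e : LinearMap.ker D' ≃ₗ[ℝ] (Fin 2 → ℝ) := LinearEquiv.ofFinrankEq _ _ hker
  let k : E (n + 2) →ₗ[ℝ] LinearMap.ker D' := LinearMap.codRestrict _ (LinearMap.id - r ∘ₗ D')
    (fun v => by
      rw [LinearMap.mem_ker, LinearMap.sub_apply, LinearMap.id_apply, LinearMap.comp_apply, map_sub,
        hr', sub_self])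
  let B : E (n + 2) →ₗ[ℝ] E (n + 2) :=
    (WithLp.linearEquiv 2 ℝ (Fin (n + 2) → ℝ)).symm.toLinearMap ∘ₗ
      LinearMap.pi (Fin.cons (LinearMap.proj 0 ∘ₗ e.toLinearMap ∘ₗ k)
        (Fin.cons (LinearMap.proj 1 ∘ₗ e.toLinearMap ∘ₗ k)
          (fun j => (D j : E (n + 2) →ₗ[ℝ] ℝ)) : Fin (n + 1) → E (n + 2) →ₗ[ℝ] ℝ))
  have hB0 : ∀ v, B v 0 = e (k v) 0 := fun v => rfl
  have hB1 : ∀ v, B v 1 = e (k v) 1 := fun v => rfl
  have hB2 : ∀ v j, B v (Fin.succ (Fin.succ j)) = D j v := fun v j => rfl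
  have hinj : Function.Injective B := by
    rw [← LinearMap.ker_eq_bot, LinearMap.ker_eq_bot']
    intro v hv
    have h1 : D' v = 0 := by
      funext j
      have := hB2 v j
      rw [hv] at this
      exact this.symm
    have h2 : e (k v) = 0 := by
      funext i
      fin_cases i
      · have := hB0 v
        rw [hv] at this
        exact this.symm
      · have := hB1 v
        rw [hv] at this
        exact this.symm
    have h3 : k v = 0 := (LinearEquiv.map_eq_zero_iff e).1 h2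
    have h4 : (k v : E (n + 2)) = v - r (D' v) := rfl
    rw [h3, h1, map_zero, sub_zero] at h4
    exact h4.symm
  refine ⟨(LinearEquiv.ofInjectiveEndo B hinj).toContinuousLinearEquiv, fun v j => ?_⟩
  exact hB2 v j

/-- straightening in the model space -/
lemma straight {n : ℕ} {U : Set (E (n + 2))} (hU : IsOpen U) {a : E (n + 2)} (ha : a ∈ U)
    (f : Fin n → E (n + 2) → ℝ) (hf : ∀ j, ContDiffOn ℝ ∞ (f j) U)
    (hreg : ∀ w : Fin n → ℝ, ∃ v, ∀ j, fderiv ℝ (f j) a v = w j) :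
    ∃ h : OpenPartialHomeomorph (E (n + 2)) (E (n + 2)), a ∈ h.source ∧ h.source ⊆ U ∧
      ContDiffOn ℝ ∞ h h.source ∧ ContDiffOn ℝ ∞ h.symm h.target ∧
      ∀ y j, h y (Fin.succ (Fin.succ j)) = f j y := by
  obtain ⟨A, hA⟩ := exists_compl (fun j => fderiv ℝ (f j) a) hreg
  set G : E (n + 2) → E (n + 2) := fun y => WithLp.toLp 2
    (Fin.cons (A y 0) (Fin.cons (A y 1) (fun j => f j y) : Fin (n + 1) → ℝ) : Fin (n + 2) → ℝ)
    with hG
  have hG0 : ∀ y, G y 0 = A y 0 := fun y => rfl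
  have hG1 : ∀ y, G y 1 = A y 1 := fun y => rfl
  have hG2 : ∀ y j, G y (Fin.succ (Fin.succ j)) = f j y := fun y j => rfl
  have hGU : ContDiffOn ℝ ∞ G U := by
    rw [contDiffOn_euclidean]
    intro i
    refine Fin.cases ?_ (fun i => Fin.cases ?_ (fun j => ?_) i) i
    · change ContDiffOn ℝ ∞ (fun y => A y 0) U
      exact ((EuclideanSpace.proj (0 : Fin (n + 2)) : E (n + 2) →L[ℝ] ℝ).contDiff.comp
        A.contDiff).contDiffOn
    · change ContDiffOn ℝ ∞ (fun y => A y 1) U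
      exact ((EuclideanSpace.proj (1 : Fin (n + 2)) : E (n + 2) →L[ℝ] ℝ).contDiff.comp
        A.contDiff).contDiffOn
    · exact hf j
  have hda : ∀ y ∈ U, ContDiffAt ℝ ∞ G y := fun y hy => hGU.contDiffAt (hU.mem_nhds hy)
  have hGa : HasFDerivAt G (A : E (n + 2) →L[ℝ] E (n + 2)) a := by
    rw [← hasFDerivWithinAt_univ, hasFDerivWithinAt_euclidean]
    intro i
    rw [hasFDerivWithinAt_univ]
    refine Fin.cases ?_ (fun i => Fin.cases ?_ (fun j => ?_) i) i
    · exact ((EuclideanSpace.proj (0 : Fin (n + 2)) : E (n + 2) →L[ℝ] ℝ).comp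
        (A : E (n + 2) →L[ℝ] E (n + 2))).hasFDerivAt
    · exact ((EuclideanSpace.proj (1 : Fin (n + 2)) : E (n + 2) →L[ℝ] ℝ).comp
        (A : E (n + 2) →L[ℝ] E (n + 2))).hasFDerivAt
    · have h1 : HasFDerivAt (f j) (fderiv ℝ (f j) a) a :=
        (((hf j).contDiffAt (hU.mem_nhds ha)).differentiableAt (by simp)).hasFDerivAt
      have h2 : fderiv ℝ (f j) a = (PiLp.proj 2 (fun _ : Fin (n + 2) => ℝ) j.succ.succ ∘L
          (A : E (n + 2) →L[ℝ] E (n + 2))) := by
        ext v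
        exact (hA v j).symm
      rw [← h2]
      exact h1
  have hn : (∞ : WithTop ℕ∞) ≠ 0 := by simp
  set h0 := (hda a ha).toOpenPartialHomeomorph G hGa hn with hh0
  have hcoe : ∀ y, h0 y = G y := fun y => rfl
  set S : Set (E (n + 2)) := U ∩ fderiv ℝ G ⁻¹'
    (range ((↑) : (E (n + 2) ≃L[ℝ] E (n + 2)) → (E (n + 2) →L[ℝ] E (n + 2)))) with hS
  have hSo : IsOpen S := (hGU.continuousOn_fderiv_of_isOpen hU (by simp)).isOpen_inter_preimage hU
    ContinuousLinearEquiv.isOpen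
  have haS : a ∈ S := ⟨ha, A, hGa.fderiv.symm⟩
  refine ⟨h0.restrOpen S hSo, ⟨(hda a ha).mem_toOpenPartialHomeomorph_source hGa hn, haS⟩,
    fun y hy => hy.2.1, ?_, ?_, fun y j => hG2 y j⟩
  · intro y hy
    exact (hda y hy.2.1).contDiffWithinAt
  · intro b hb
    have h1 := (h0.restrOpen S hSo).map_target hb
    obtain ⟨B, hB⟩ := h1.2.2
    refine ((h0.restrOpen S hSo).contDiffAt_symm (f₀' := B) hb ?_ (hda _ h1.2.1)).contDiffWithinAt
    rw [hB]
    exact ((hda _ h1.2.1).differentiableAt (by simp)).hasFDerivAt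

end Pool.Agent.L7h89.OF
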