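import Pool.Agent.L7h49.OF.Stm2
import Pool.Agent.L7h89.OF.Str0

/-!
# Straightening a submersion

Task S_STR of the project OF of helper49.
-/

set_option autoImplicit false

open Set Filter Topology MeasureTheory
open scoped Manifold ContDiff

noncomputable section

namespace Pool.Agent.L7h89.OF

open Pool.Agent.Y501.SY
open Pool.Agent.L7h49.OG

/-- task S_STR -/
theorem st_STR : S_STR := by
  intro n X _ _ _ _ F hF x₁ N₁ hN₁ hreg
  set c := chartAt (E (n + 2)) x₁ with hc
  set U : Set (E (n + 2)) := c.target ∩ c.symm ⁻¹' interior N₁ with hUdef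
  have hU : IsOpen U := c.isOpen_inter_preimage_symm isOpen_interior
  have hx₁ : x₁ ∈ c.source := mem_chart_source _ _
  have ha : c x₁ ∈ U := ⟨c.map_source hx₁, by
    rw [mem_preimage, c.left_inv hx₁]; exact mem_interior_iff_mem_nhds.2 hN₁⟩
  have hsymm : ContMDiffOn (𝓡 (n + 2)) (𝓡 (n + 2)) ∞ c.symm c.target := contMDiffOn_chart_symm
  have hf : ∀ j, ContDiffOn ℝ ∞ (F j ∘ c.symm) U := by
    intro j
    rw [← contMDiffOn_iff_contDiffOn]
    exact ((hF j).comp_contMDiffOn hsymm).mono inter_subset_left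
  have hd : ∀ j, fderiv ℝ (F j ∘ c.symm) (c x₁) = dd (d := n + 2) (F j) x₁ := by
    intro j
    have h1 : MDifferentiableAt (𝓡 (n + 2)) 𝓘(ℝ, ℝ) (F j) x₁ :=
      (hF j).mdifferentiableAt (by simp)
    simp only [dd, mfderiv, h1, if_true, writtenInExtChartAt, extChartAt, mfld_simps,
      fderivWithin_univ]
    rfl
  obtain ⟨h, hah, hsU, hsm, hsm', hco⟩ := straight hU ha (fun j => F j ∘ c.symm) hf (by
    intro w
    obtain ⟨v, hv⟩ := hreg w
    exact ⟨v, fun j => by rw [hd j]; exact hv j⟩)
  have hst : h.source ⊆ c.target := hsU.trans inter_subset_left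
  have himg : (c.symm ∘ h.symm) '' h.target = c.symm '' h.source := by
    rw [image_comp, h.symm_image_target_eq_source]
  have himg2 : c.symm '' h.source ⊆ c.source := by
    rintro _ ⟨y, hy, rfl⟩
    exact c.map_target (hst hy)
  refine ⟨h.target, h (c x₁), c.symm ∘ h.symm, h ∘ c, h.open_target, h.map_source hah, ?_, ?_, ?_,
    ?_, ?_, ?_, ?_⟩
  · rw [Function.comp_apply, h.left_inv hah, c.left_inv hx₁]
  · refine hsymm.comp (contMDiffOn_iff_contDiffOn.2 hsm') ?_
    intro p hp
    exact hst (h.map_target hp)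
  · rw [himg]
    exact c.symm.isOpen_image_of_subset_source h.open_source hst
  · rw [himg]
    rintro _ ⟨y, hy, rfl⟩
    exact interior_subset (hsU hy).2
  · rw [himg]
    have h1 : ContMDiffOn (𝓡 (n + 2)) (𝓡 (n + 2)) ∞ c c.source := contMDiffOn_chart
    refine (contMDiffOn_iff_contDiffOn.2 hsm).comp (h1.mono himg2) ?_
    rintro _ ⟨y, hy, rfl⟩
    rw [mem_preimage, c.right_inv (hst hy)]
    exact hy
  · intro p hp
    rw [Function.comp_apply, Function.comp_apply, c.right_inv (hst (h.map_target hp)),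
      h.right_inv hp]
  · intro p hp j
    have h1 := hco (h.symm p) j
    rw [h.right_inv hp] at h1
    exact h1.symm

end Pool.Agent.L7h89.OF
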