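import Pool.Agent.L7h49.OF.Stm

/-!
# Translations

Tasks S_TR and S_TI of the project OF of helper49.
-/

set_option autoImplicit false

open Set Filter Topology MeasureTheory
open scoped ContDiff

noncomputable section

namespace Pool.Agent.L7h89.OF

open Pool.Agent.L7h49.OF

lemma hasDerivAt_int {k : ℕ} {Y : Type} [MeasurableSpace Y] {μ : Measure Y} {F : Y → E k}
    {w : Y → ℝ} (hF : AEMeasurable F μ) (hw : Integrable w μ) {g : E k → ℝ}
    (hg : ContDiff ℝ ∞ g) (hc : HasCompactSupport g) (a : E k) (s : ℝ) :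
    HasDerivAt (fun s : ℝ => ∫ y, g (F y - s • a) * w y ∂μ)
      (∫ y, (fderiv ℝ g (F y - s • a) (-a)) * w y ∂μ) s := by
  have hgc : Continuous g := hg.continuous
  have hdc : Continuous (fderiv ℝ g) := hg.continuous_fderiv (by simp)
  obtain ⟨C, hC⟩ := (hc.fderiv (𝕜 := ℝ)).exists_bound_of_continuous hdc
  obtain ⟨C0, hC0⟩ := hc.exists_bound_of_continuous hgc
  have hmeas : ∀ s : ℝ, AEStronglyMeasurable (fun y => g (F y - s • a)) μ := fun s =>
    (hgc.measurable.comp_aemeasurable (hF.sub_const _)).aestronglyMeasurable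
  have hmeas' : ∀ s : ℝ, AEStronglyMeasurable (fun y => fderiv ℝ g (F y - s • a) (-a)) μ := fun s =>
    (((hdc.clm_apply continuous_const).measurable).comp_aemeasurable
      (hF.sub_const _)).aestronglyMeasurable
  refine (hasDerivAt_integral_of_dominated_loc_of_deriv_le (F := fun s y => g (F y - s • a) * w y)
    (F' := fun s y => fderiv ℝ g (F y - s • a) (-a) * w y)
    (bound := fun y => C * ‖a‖ * ‖w y‖) (s := Set.univ) Filter.univ_mem
    (Eventually.of_forall fun s => (hmeas s).mul hw.aestronglyMeasurable)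
    ?_ ((hmeas' s).mul hw.aestronglyMeasurable) ?_ (hw.norm.const_mul _) ?_).2
  · exact hw.bdd_mul (hmeas s) (Eventually.of_forall fun y => hC0 _)
  · refine Eventually.of_forall fun y s _ => ?_
    rw [norm_mul]
    gcongr
    refine (ContinuousLinearMap.le_opNorm _ _).trans ?_
    rw [norm_neg]
    gcongr
    exact hC _
  · refine Eventually.of_forall fun y s _ => ?_
    have h1 : HasDerivAt (fun s : ℝ => F y - s • a) (-a) s := by
      simpa using ((hasDerivAt_id s).smul_const a).const_sub (F y)
    have h2 : HasFDerivAt g (fderiv ℝ g (F y - s • a)) (F y - s • a) :=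
      (hg.differentiable (by simp) _).hasFDerivAt
    exact (h2.comp_hasDerivAt s h1).mul_const _

/-- task S_TR -/
theorem st_TR : S_TR := by
  intro k ι Y _ _ μ F w hF hw U hU H g a hg hc hs
  set f : ℝ → ℝ := fun s => ∑ i, ∫ y, g (F i y - s • a) * w i y ∂(μ i) with hf
  have hder : ∀ s : ℝ, HasDerivAt f (∑ i, ∫ y, (fderiv ℝ g (F i y - s • a) (-a)) * w i y ∂(μ i)) s := by
    intro s
    simp only [hf]
    exact HasDerivAt.fun_sum fun i _ => hasDerivAt_int (hF i) (hw i) hg hc a s
  have hzero : ∀ s : ℝ, 0 ≤ s → s ≤ 1 →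
      (∑ i, ∫ y, (fderiv ℝ g (F i y - s • a) (-a)) * w i y ∂(μ i)) = 0 := by
    intro s h0 h1
    have e1 : ∀ x, fderiv ℝ (fun z => g (z - s • a)) x = fderiv ℝ g (x - s • a) := by
      intro x
      rw [fderiv_comp_sub]
    have h2 := H (fun z => g (z - s • a)) (hg.comp (contDiff_id.sub contDiff_const))
      (hc.comp_homeomorph (Homeomorph.subRight (s • a))) ?_ (-a)
    · simpa only [e1] using h2
    · intro x hx
      have h3 : x - s • a ∈ tsupport g := by
        have h4 := tsupport_comp_subset_preimage g (f := fun z => z - s • a) (by fun_prop) hx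
        exact h4
      have := hs s h0 h1 _ h3
      simpa using this
  have := constant_of_has_deriv_right_zero (f := f) (a := 0) (b := 1)
    (fun s _ => (hder s).continuousAt.continuousWithinAt)
    (fun s hs => by
      have := hder s
      rw [hzero s hs.1 hs.2.le] at this
      exact this.hasDerivWithinAt) 1 ⟨zero_le_one, le_rfl⟩
  simpa [hf] using this

end Pool.Agent.L7h89.OF
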