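import Mathlib
import Pool.Agent.L7h49.OF.Stm4

/-!
# Project OF: proof of `S_CS` (a nondegenerate form tames a complex structure)
-/

set_option autoImplicit false

noncomputable section

namespace Pool.Agent.L7h89.OFC

open Pool.Agent.L7h49.OG

universe u

/-- bilinear version, by induction on the dimension -/
theorem tame (n : ℕ) : ∀ (V : Type u) [AddCommGroup V] [Module ℝ V] [FiniteDimensional ℝ V]
    (B : V →ₗ[ℝ] V →ₗ[ℝ] ℝ), Module.finrank ℝ V = n → (∀ v, B v v = 0) →
    (∀ v, (∀ u, B v u = 0) → v = 0) →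
    ∃ I : V →ₗ[ℝ] V, (∀ v, I (I v) = -v) ∧ ∀ v, v ≠ 0 → 0 < B v (I v) := by
  induction n using Nat.strong_induction_on with
  | _ n ih =>
  intro V _ _ _ B hn hB hnd
  have hsk : ∀ x y, B x y = - B y x := by
    intro x y
    have h := hB (x + y)
    simp only [map_add, LinearMap.add_apply, hB, zero_add, add_zero] at h
    linarith
  by_cases h0 : ∀ v : V, v = 0
  · refine ⟨0, fun v => ?_, fun v hv => absurd (h0 v) hv⟩
    rw [h0 v]; simp
  push Not at h0
  obtain ⟨v, hv⟩ := h0
  obtain ⟨u', hu'⟩ : ∃ u', B v u' ≠ 0 := by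
    by_contra hc
    push Not at hc
    exact hv (hnd v hc)
  obtain ⟨u, hvu⟩ : ∃ u, B v u = 1 :=
    ⟨(B v u')⁻¹ • u', by rw [map_smul, smul_eq_mul, inv_mul_cancel₀ hu']⟩
  have huv : B u v = -1 := by rw [hsk, hvu]
  let W : Submodule ℝ V := LinearMap.ker (B v) ⊓ LinearMap.ker (B u)
  have hWm : ∀ w, w ∈ W ↔ B v w = 0 ∧ B u w = 0 := by
    intro w
    simp [W]
  let p0 : V →ₗ[ℝ] V := LinearMap.id - (B.flip u).smulRight v - (B v).smulRight u
  have hp0 : ∀ x, p0 x = x - B x u • v - B v x • u := by
    intro x
    simp [p0]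
  have hp0W : ∀ x, p0 x ∈ W := by
    intro x
    rw [hWm, hp0]
    constructor
    · simp only [map_sub, map_smul, smul_eq_mul, hB, hvu]; ring
    · simp only [map_sub, map_smul, smul_eq_mul, hB, huv]
      rw [hsk u x]; ring
  let p : V →ₗ[ℝ] W := p0.codRestrict W hp0W
  have hp : ∀ x, ((p x : W) : V) = x - B x u • v - B v x • u := fun x => hp0 x
  have hlt : Module.finrank ℝ W < n := by
    rw [← hn]
    refine Submodule.finrank_lt ?_
    intro htop
    have : v ∈ W := by rw [htop]; trivial
    rw [hWm] at this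
    rw [huv] at this
    norm_num at this
  let BW : W →ₗ[ℝ] W →ₗ[ℝ] ℝ := (B.domRestrict₁₂ W W)
  have hBW : ∀ x y : W, BW x y = B x y := fun x y => rfl
  obtain ⟨J, hJ1, hJ2⟩ := ih _ hlt W BW rfl (fun w => hB w) (by
    intro w hw
    apply Subtype.ext
    apply hnd
    intro x
    have h1 := hw (p x)
    rw [hBW, hp, map_sub, map_sub, map_smul, map_smul] at h1
    have h2 := (hWm w).1 w.2
    rw [hsk (w : V) v, hsk (w : V) u, h2.1, h2.2] at h1
    simpa using h1)
  refine ⟨(B.flip u).smulRight u - (B v).smulRight v + W.subtype ∘ₗ J ∘ₗ p, ?_, ?_⟩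
  · intro x
    have hI : ∀ y, ((B.flip u).smulRight u - (B v).smulRight v + W.subtype ∘ₗ J ∘ₗ p) y
        = B y u • u - B v y • v + ((J (p y) : W) : V) := by
      intro y; simp
    have hpw : ∀ (a b : ℝ) (w : W), p (a • u - b • v + (w : V)) = w := by
      intro a b w
      apply Subtype.ext
      rw [hp]
      have h2 := (hWm w).1 w.2
      have h3 : B (w : V) u = 0 := by rw [hsk, h2.2]; simp
      simp only [map_add, map_sub, map_smul, LinearMap.add_apply, LinearMap.sub_apply,
        LinearMap.smul_apply, smul_eq_mul, hB, hvu, h2.1, h3]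
      module
    rw [hI x, hI, hpw, hJ1]
    have h2 := (hWm _).1 (J (p x)).2
    have h3 : B ((J (p x) : W) : V) u = 0 := by rw [hsk, h2.2]; simp
    simp only [map_add, map_sub, map_smul, LinearMap.add_apply, LinearMap.sub_apply,
      LinearMap.smul_apply, smul_eq_mul, hB, hvu, h2.1, h3, Submodule.coe_neg, hp]
    module
  · intro x hx
    have hI : ∀ y, ((B.flip u).smulRight u - (B v).smulRight v + W.subtype ∘ₗ J ∘ₗ p) y
        = B y u • u - B v y • v + ((J (p y) : W) : V) := by
      intro y; simp
    rw [hI]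
    have h4 : B x ((J (p x) : W) : V) = BW (p x) (J (p x)) := by
      rw [hBW, hp]
      have h2 := (hWm _).1 (J (p x)).2
      simp only [map_sub, map_smul, LinearMap.sub_apply, LinearMap.smul_apply, smul_eq_mul, h2.1,
        h2.2]
      ring
    have h5 : B x (B x u • u - B v x • v + ((J (p x) : W) : V))
        = B x u ^ 2 + B v x ^ 2 + BW (p x) (J (p x)) := by
      rw [map_add, map_sub, map_smul, map_smul, h4, smul_eq_mul, smul_eq_mul, hsk x v]
      ring
    rw [h5]
    by_cases hpx : p x = 0
    · rw [hpx]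
      have h6 : x = B x u • v + B v x • u := by
        have := hp x
        rw [hpx] at this
        simp only [Submodule.coe_zero] at this
        have h7 : x = x - B x u • v - B v x • u + (B x u • v + B v x • u) := by module
        rwa [← this, zero_add] at h7
      have h8 : B x u ≠ 0 ∨ B v x ≠ 0 := by
        by_contra hc
        push Not at hc
        rw [hc.1, hc.2] at h6
        simp at h6
        exact hx h6
      simp only [map_zero]
      rcases h8 with h8 | h8
      · have := sq_nonneg (B v x); positivity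
      · have := sq_nonneg (B x u); positivity
    · have := hJ2 _ hpx
      positivity

/-- **`S_CS`.** -/
theorem st_CS : S_CS := by
  intro n B hB
  have e0 : ∀ x y z : EuclideanSpace ℝ (Fin n), Function.update ![x, y] 0 z = ![z, y] := by
    intro x y z
    funext i
    fin_cases i <;> simp
  have e1 : ∀ x y z : EuclideanSpace ℝ (Fin n), Function.update ![x, y] 1 z = ![x, z] := by
    intro x y z
    funext i
    fin_cases i <;> simp
  let BL : EuclideanSpace ℝ (Fin n) →ₗ[ℝ] EuclideanSpace ℝ (Fin n) →ₗ[ℝ] ℝ :=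
    LinearMap.mk₂ ℝ (fun v u => B ![v, u])
      (fun a b c => by
        have := B.map_update_add ![a, c] 0 a b
        rwa [e0, e0, e0] at this)
      (fun r a c => by
        have := B.map_update_smul ![a, c] 0 r a
        rwa [e0, e0] at this)
      (fun a b c => by
        have := B.map_update_add ![a, b] 1 b c
        rwa [e1, e1, e1] at this)
      (fun r a c => by
        have := B.map_update_smul ![a, c] 1 r c
        rwa [e1, e1] at this)
  have hBL : ∀ v u, BL v u = B ![v, u] := fun v u => rfl
  obtain ⟨I, h1, h2⟩ := tame n (EuclideanSpace ℝ (Fin n)) BL (by simp)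
    (fun v => by
      rw [hBL]
      exact B.map_eq_zero_of_eq ![v, v] (i := 0) (j := 1) rfl (by decide))
    (fun v hv => hB v (fun u => by rw [← hBL]; exact hv u))
  exact ⟨I, h1, fun v hv => by rw [← hBL]; exact h2 v hv⟩

end Pool.Agent.L7h89.OFC
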